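import Pool.Agent.H258.TR.Ping

/-! The power alternative for groups acting on trees with edge stabilisers which embed in an abelian
quotient of the group. -/

set_option autoImplicit false

namespace Pool.Agent.H258.TR

open Pool.Agent.Helper270.Tree SimpleGraph Pool.Agent.H258.PA

variable {G V : Type} [Group G] [MulAction G V] {T : SimpleGraph V}

/-- the vertices fixed by a power of `a` -/
def Fx (V : Type) {G : Type} [Group G] [MulAction G V] (a : G) : Set V :=
  {v | ∃ k : ℕ, 1 ≤ k ∧ a ^ k • v = v}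

theorem fix_mul {a : G} {v : V} {k : ℕ} (h : a ^ k • v = v) (c : ℕ) : a ^ (k * c) • v = v := by
  rw [pow_mul]
  have : a ^ k ∈ MulAction.stabilizer G v := h
  exact Subgroup.pow_mem _ this c

theorem fix_zpow {a : G} {v : V} (h : a • v = v) (c : ℤ) : a ^ c • v = v := by
  have : a ∈ MulAction.stabilizer G v := h
  exact Subgroup.zpow_mem _ this c

/-- a vertex fixed by a nonzero power -/
theorem mem_Fx_of_zpow {a : G} {v : V} {n : ℕ} (hn : 1 ≤ n) {k : ℤ} (hk : k ≠ 0)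
    (h : (a ^ n) ^ k • v = v) : v ∈ Fx V a := by
  refine ⟨n * k.natAbs, Nat.mul_pos hn (by omega), ?_⟩
  rw [pow_mul]
  have h1 : (a ^ n) ^ k ∈ MulAction.stabilizer G v := h
  rcases lt_or_gt_of_ne hk with hk' | hk'
  · have h2 := Subgroup.inv_mem _ h1
    rw [← zpow_neg, show -k = ((k.natAbs : ℕ) : ℤ) by omega, zpow_natCast] at h2
    exact h2
  · rw [show k = ((k.natAbs : ℕ) : ℤ) by omega, zpow_natCast] at h1
    exact h1

/-- sets such as the fixed vertices of the powers, or the axis -/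
def Chr (T : SimpleGraph V) (a : G) (S : Set V) : Prop :=
  S.Nonempty ∧ ∀ x ∈ S, ∀ x', T.Adj x x' → x' ∉ S →
    ∃ k : ℕ, 1 ≤ k ∧ ∀ c : ℕ, 1 ≤ c → Br T (a ^ (k * c)) x x'

theorem Chr.fx (h : TreeAct G T) {a : G} (ha : (Fx V a).Nonempty) : Chr T a (Fx V a) := by
  refine ⟨ha, ?_⟩
  rintro x ⟨k, hk, hx⟩ x' hadj hx'
  refine ⟨k, hk, fun c hc => Br.elliptic h hadj (fix_mul hx c) fun j hj h1 => ?_⟩
  exact hx' (mem_Fx_of_zpow (Nat.mul_pos hk hc) hj h1)

theorem axis_pow {a : G} {L : ℤ → V} {l : ℕ} (ha : IsAxis T a L l) {n : ℕ} (hn : 1 ≤ n) :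
    IsAxis T (a ^ n) L (n * l) where
  line := ha.line
  pos := Nat.mul_pos hn ha.pos
  smul i := by
    have := ha.smul_zpow n i
    rw [zpow_natCast] at this
    rw [this]
    push_cast
    rfl

theorem Chr.axis (h : TreeAct G T) {a : G} {L : ℤ → V} {l : ℕ} (ha : IsAxis T a L l) :
    Chr T a (Set.range L) := by
  refine ⟨⟨L 0, 0, rfl⟩, ?_⟩
  rintro _ ⟨i, rfl⟩ x' hadj hx'
  refine ⟨1, le_rfl, fun c hc => ?_⟩
  rw [one_mul]
  exact Br.axis h (axis_pow ha hc) hadj fun j hj => hx' ⟨j, hj⟩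

theorem of_disjoint (h : TreeAct G T) {a b : G} {S S' : Set V} (hS : Chr T a S) (hS' : Chr T b S')
    (hd : ∀ x ∈ S, x ∉ S') : PAt a b := by
  classical
  have hT := h.isTree
  have hex : ∃ n, ∃ x ∈ S, ∃ y ∈ S', T.dist x y = n := by
    obtain ⟨x, hx⟩ := hS.1
    obtain ⟨y, hy⟩ := hS'.1
    exact ⟨_, x, hx, y, hy, rfl⟩
  obtain ⟨x, hx, y, hy, hxy⟩ := Nat.find_spec hex
  have hmin : ∀ x' ∈ S, ∀ y' ∈ S', T.dist x y ≤ T.dist x' y' := by
    intro x' hx' y' hy'
    rw [hxy]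
    exact Nat.find_min' hex ⟨x', hx', y', hy', rfl⟩
  obtain ⟨w, hw0, hwn, hadj, hd', hnb⟩ := exists_geod hT x y
  set n := T.dist x y with hn
  have hpos : 0 < n := by
    rcases Nat.eq_zero_or_pos n with h0 | h0
    · have := hT.connected.dist_eq_zero_iff.mp h0
      rw [this] at hx
      exact (hd _ hx hy).elim
    · exact h0
  have h1 : w 1 ∉ S := by
    intro h1
    have h2 := hmin _ h1 _ hy
    have h3 := (hd' 1 hpos).2
    omega
  have h1' : w (n - 1) ∉ S' := by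
    intro h1
    have h2 := hmin _ hx _ h1
    have h3 := (hd' (n - 1) (by omega)).1
    omega
  have e1 := hadj 0 hpos
  rw [zero_add] at e1
  have e2 := (hadj (n - 1) (by omega)).symm
  rw [show n - 1 + 1 = n by omega] at e2
  obtain ⟨k, hk, hBa⟩ := hS.2 (w 0) (by rw [hw0]; exact hx) _ e1 h1
  obtain ⟨k', hk', hBb⟩ := hS'.2 (w n) (by rw [hwn]; exact hy) _ e2 h1'
  refine ⟨k * k', Nat.mul_pos hk hk', Or.inr ?_⟩
  refine free_of_bridge h w hpos hadj hnb (hBa k' hk') ?_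
  have := hBb k hk
  rwa [mul_comm] at this

section Rigid

variable {P : Type} [CommGroup P] {τ : G →* P}
  (hE : ∀ v w : V, T.Adj v w → ∀ g : G, g • v = v → g • w = w → τ g = 1 → g = 1)

include hE

/-- an element is equal to a conjugate which fixes the same edge -/
theorem conj_eq {v w : V} (hadj : T.Adj v w) {g c : G} (h1 : g • v = v) (h2 : g • w = w)
    (h3 : (c * g * c⁻¹) • v = v) (h4 : (c * g * c⁻¹) • w = w) : c * g * c⁻¹ = g := by
  have e : c * g * c⁻¹ * g⁻¹ = 1 := by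
    refine hE v w hadj _ ?_ ?_ ?_
    · rw [mul_smul, inv_smul_eq_iff.mpr h1.symm, h3]
    · rw [mul_smul, inv_smul_eq_iff.mpr h2.symm, h4]
    · rw [map_mul, map_mul, map_mul, map_inv, map_inv, mul_comm (τ c) (τ g), mul_assoc (τ g),
        mul_inv_cancel, mul_one, mul_inv_cancel]
  rwa [mul_inv_eq_one] at e

theorem eh_long (h : TreeAct G T) {a b : G} {M : ℤ → V} {m : ℕ} (hb : IsAxis T b M m) {i j : ℤ}
    (hij : i + m + 1 ≤ j) (hi : M i ∈ Fx V a) (hj : M j ∈ Fx V a) : PAt a b := by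
  obtain ⟨k, hk, hki⟩ := hi
  obtain ⟨k', hk', hkj⟩ := hj
  have hg1 : a ^ (k * k') • M i = M i := fix_mul hki k'
  have hg2 : a ^ (k * k') • M j = M j := by rw [mul_comm]; exact fix_mul hkj k
  have hg : ∀ s, i ≤ s → s ≤ j → a ^ (k * k') • M s = M s := by
    intro s h1 h2
    refine h.convex hg1 hg2 ?_
    rw [hb.line.dist h.isTree, hb.line.dist h.isTree, hb.line.dist h.isTree]
    omega
  have hbi : ∀ s : ℤ, b⁻¹ • M (s + m) = M s := fun s => by rw [inv_smul_eq_iff, hb.smul]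
  have hcj : ∀ s : ℤ, i ≤ s → s ≤ j → (b * a ^ (k * k') * b⁻¹) • M (s + m) = M (s + m) := by
    intro s h1 h2
    rw [mul_smul, mul_smul, hbi, hg s h1 h2, hb.smul]
  have e := conj_eq hE (hb.line.adj (i + m)) (hg _ (by omega) (by omega))
    (hg _ (by omega) (by omega)) (c := b) (hcj i le_rfl (by omega)) (by
      have := hcj (i + 1) (by omega) (by omega)
      rwa [show i + 1 + (m : ℤ) = i + m + 1 by ring] at this)
  refine ⟨k * k', Nat.mul_pos hk hk', Or.inl ?_⟩
  have h1 : Commute b (a ^ (k * k')) := by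
    rw [mul_inv_eq_iff_eq_mul] at e
    exact e
  exact (h1.pow_left _).symm

omit hE in
theorem eh_short (h : TreeAct G T) {a b : G} {M : ℤ → V} {m : ℕ} (hb : IsAxis T b M m)
    (hne : ∃ i, M i ∈ Fx V a) (hJ : ∀ i j, M i ∈ Fx V a → M j ∈ Fx V a → j ≤ i + m) :
    PAt a b := by
  classical
  have hT := h.isTree
  obtain ⟨i₀, hi₀⟩ := hne
  obtain ⟨p, hp, hpm⟩ := Int.exists_least_of_bdd (P := fun i => M i ∈ Fx V a)
    ⟨i₀ - m, fun z hz => by have := hJ z i₀ hz hi₀; omega⟩ ⟨i₀, hi₀⟩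
  obtain ⟨q, hq, hqm⟩ := Int.exists_greatest_of_bdd (P := fun i => M i ∈ Fx V a)
    ⟨i₀ + m, fun z hz => hJ i₀ z hi₀ hz⟩ ⟨i₀, hi₀⟩
  have hpq : p ≤ q := hpm q hq
  have hpq' : q ≤ p + m := hJ p q hp hq
  obtain ⟨k, hk, hkp⟩ := hp
  obtain ⟨k', hk', hkq⟩ := hq
  have hA1 : a ^ (k * k') • M p = M p := fix_mul hkp k'
  have hA2 : a ^ (k * k') • M q = M q := by rw [mul_comm]; exact fix_mul hkq k
  have hkk : 1 ≤ k * k' := Nat.mul_pos hk hk'
  set A := a ^ (k * k') with hA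
  have hq1 : ∀ c : ℤ, c ≠ 0 → A ^ c • M (q + 1) ≠ M (q + 1) := fun c hc h1 => by
    have := hqm _ (mem_Fx_of_zpow hkk hc h1)
    omega
  have hp1 : ∀ c : ℤ, c ≠ 0 → A ^ c • M (p - 1) ≠ M (p - 1) := fun c hc h1 => by
    have := hpm _ (mem_Fx_of_zpow hkk hc h1)
    omega
  have hswap : ∀ u v : V, (∀ c : ℤ, c ≠ 0 → A ^ c • u ≠ u) →
      ∃ K : ℕ, ∀ c : ℤ, A ^ c • u = v → c.natAbs ≤ K := by
    intro u v hu
    by_cases hex : ∃ c : ℤ, A ^ c • u = v
    · obtain ⟨c₀, hc₀⟩ := hex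
      refine ⟨c₀.natAbs, fun c hc => ?_⟩
      by_cases hcc : c = c₀
      · rw [hcc]
      · exfalso
        refine hu (-c₀ + c) (by omega) ?_
        rw [zpow_add, mul_smul, hc, ← hc₀, ← mul_smul, ← zpow_add, neg_add_cancel, zpow_zero,
          one_smul]
    · exact ⟨0, fun c hc => (hex ⟨c, hc⟩).elim⟩
  obtain ⟨K₁, hK₁⟩ := hswap _ (M (q - 1)) hq1
  obtain ⟨K₂, hK₂⟩ := hswap _ (M (p + 1)) hp1
  set c₀ : ℕ := K₁ + K₂ + 2 with hc₀
  refine ⟨k * k' * c₀, Nat.mul_pos hkk (by omega), Or.inr ?_⟩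
  have hnat : 2 ≤ k * k' * c₀ := by nlinarith
  refine free_of_axis h (axis_pow hb (by omega)) hpq ?_ ?_
  · have h1 : 2 * (m : ℤ) ≤ ((k * k' * c₀ : ℕ) : ℤ) * m :=
      mul_le_mul_of_nonneg_right (by exact_mod_cast hnat) (by omega)
    have h2 := hb.pos
    push_cast at h1 ⊢
    omega
  · intro j hj z hz
    rw [pow_mul, ← hA, ← zpow_natCast, ← zpow_mul]
    have hbig : c₀ ≤ ((c₀ : ℤ) * j).natAbs := by
      rw [Int.natAbs_mul, Int.natAbs_natCast]
      exact Nat.le_mul_of_pos_right _ (by omega)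
    have hne : (c₀ : ℤ) * j ≠ 0 := by
      intro h0
      rw [h0] at hbig
      simp only [Int.natAbs_zero] at hbig
      omega
    set g := A ^ ((c₀ : ℤ) * j) with hg
    obtain ⟨i, hi, hi'⟩ := hz
    rcases hi' with hi' | hi'
    · -- below
      refine ⟨p, ?_, le_rfl, hpq⟩
      have hgp : g • M p = M p := fix_zpow hA1 _
      refine Pr.of_behind hT hb.line (u := g • M (p - 1)) ?_ ?_ ?_ ?_
      · have h1 := h.adj g _ _ (hb.line.adj (p - 1))
        rwa [show p - 1 + 1 = p by ring, hgp] at h1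
      · intro h1
        have := hK₂ _ h1
        omega
      · exact hp1 _ hne
      · have h1 := h.dist_smul g z (M p)
        have h2 := h.dist_smul g z (M (p - 1))
        rw [hgp] at h1
        have h3 := hi p
        have h4 := hi (p - 1)
        omega
    · refine ⟨q, ?_, hpq, le_rfl⟩
      have hgq : g • M q = M q := fix_zpow hA2 _
      refine Pr.of_behind hT hb.line (u := g • M (q + 1)) ?_ ?_ ?_ ?_
      · have h1 := h.adj g _ _ (hb.line.adj q).symm
        rwa [hgq] at h1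
      · exact hq1 _ hne
      · intro h1
        have := hK₁ _ h1
        omega
      · have h1 := h.dist_smul g z (M q)
        have h2 := h.dist_smul g z (M (q + 1))
        rw [hgq] at h1
        have h3 := hi q
        have h4 := hi (q + 1)
        omega

theorem eh (h : TreeAct G T) {a b : G} {M : ℤ → V} {m : ℕ} (ha : (Fx V a).Nonempty)
    (hb : IsAxis T b M m) : PAt a b := by
  by_cases hne : ∃ i, M i ∈ Fx V a
  · by_cases hlong : ∃ i j, M i ∈ Fx V a ∧ M j ∈ Fx V a ∧ i + m + 1 ≤ j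
    · obtain ⟨i, j, hi, hj, hij⟩ := hlong
      exact eh_long hE h hb hij hi hj
    · push Not at hlong
      refine eh_short h hb hne fun i j hi hj => ?_
      have := hlong i j hi hj
      omega
  · push Not at hne
    refine of_disjoint h (Chr.fx h ha) (Chr.axis h hb) ?_
    rintro x hx ⟨i, rfl⟩
    exact hne i hx

theorem hh_long (_h : TreeAct G T) {a b : G} {L M : ℤ → V} {l m : ℕ} (ha : IsAxis T a L l)
    (hb : IsAxis T b M m) {i i' : ℤ}
    (hov : ∀ s : ℤ, 0 ≤ s → s ≤ 2 * (l * m) + 1 → M (i + s) = L (i' + s)) :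
    Commute (a ^ m) (b ^ l) := by
  set A := a ^ m with hA
  set B := b ^ l with hB
  have hAL : ∀ x, A • L x = L (x + l * m) := by
    intro x
    have := ha.smul_zpow m x
    rw [zpow_natCast] at this
    rw [hA, this, mul_comm (m : ℤ)]
  have hBM : ∀ x, B • M x = M (x + l * m) := by
    intro x
    have := hb.smul_zpow l x
    rw [zpow_natCast] at this
    rw [hB, this]
  have hlm : (0 : ℤ) ≤ (l : ℤ) * m := by positivity
  -- `g = A⁻¹ B` fixes an initial part
  have hg : ∀ s : ℤ, 0 ≤ s → s ≤ l * m + 1 → (A⁻¹ * B) • M (i + s) = M (i + s) := by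
    intro s h1 h2
    rw [mul_smul, inv_smul_eq_iff, hBM, hov s h1 (by omega), hAL]
    have := hov (s + l * m) (by omega) (by omega)
    rw [show i + (s + (l : ℤ) * m) = i + s + l * m by ring,
      show i' + (s + (l : ℤ) * m) = i' + s + l * m by ring] at this
    exact this
  have hg' : ∀ s : ℤ, 0 ≤ s → s ≤ l * m + 1 →
      (A * (A⁻¹ * B) * A⁻¹) • M (i + (s + l * m)) = M (i + (s + l * m)) := by
    intro s h1 h2
    have e1 : M (i + (s + l * m)) = A • M (i + s) := by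
      rw [hov (s + l * m) (by omega) (by omega), hov s h1 (by omega), hAL]
      congr 1
      ring
    rw [e1, mul_smul, mul_smul, inv_smul_smul, hg s h1 h2]
  have e := conj_eq hE (hb.line.adj (i + l * m)) (g := A⁻¹ * B) (c := A)
    (hg (l * m) hlm (by omega)) (by
      have := hg (l * m + 1) (by omega) (by omega)
      rwa [show i + ((l : ℤ) * m + 1) = i + l * m + 1 by ring] at this) (by
      have := hg' 0 le_rfl (by omega)
      rwa [zero_add] at this) (by
      have := hg' 1 (by omega) (by omega)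
      rwa [show i + (1 + (l : ℤ) * m) = i + l * m + 1 by ring] at this)
  rw [mul_inv_cancel_left, mul_inv_eq_iff_eq_mul, mul_assoc, eq_inv_mul_iff_mul_eq] at e
  exact e

omit hE in
/-- crossing from one line to the other -/
theorem cross (hT : T.IsTree) {L M : ℤ → V} (hM : IsLine T M) (hL : IsLine T L) {r s : ℤ}
    (hrs : L r = M s) {y : V} {r' : ℤ} (hy : Pr T L y r')
    (h : (r < r' ∧ ∀ j, M j ≠ L (r + 1)) ∨ (r' < r ∧ ∀ j, M j ≠ L (r - 1))) : Pr T M y s := by
  rcases h with ⟨h1, h2⟩ | ⟨h1, h2⟩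
  · refine Pr.of_behind hT hM (u := L (r + 1)) ?_ (h2 _).symm (h2 _).symm ?_
    · rw [← hrs]; exact (hL.adj r).symm
    · rw [← hrs]
      have h3 := hy r
      have h4 := hy (r + 1)
      omega
  · refine Pr.of_behind hT hM (u := L (r - 1)) ?_ (h2 _).symm (h2 _).symm ?_
    · rw [← hrs]
      have := hL.adj (r - 1)
      rwa [show r - 1 + 1 = r by ring] at this
    · rw [← hrs]
      have h3 := hy r
      have h4 := hy (r - 1)
      omega

omit hE in
theorem hh_short (h : TreeAct G T) {a b : G} {L M : ℤ → V} {l m : ℕ} (ha : IsAxis T a L l)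
    (hb : IsAxis T b M m) (hne : ∃ i, M i ∈ Set.range L) (D : ℕ)
    (hJ : ∀ i j, M i ∈ Set.range L → M j ∈ Set.range L → j ≤ i + D) : PAt a b := by
  classical
  have hT := h.isTree
  obtain ⟨i₀, hi₀⟩ := hne
  obtain ⟨p, hp, hpm⟩ := Int.exists_least_of_bdd (P := fun i => M i ∈ Set.range L)
    ⟨i₀ - D, fun z hz => by have := hJ z i₀ hz hi₀; omega⟩ ⟨i₀, hi₀⟩
  obtain ⟨q, hq, hqm⟩ := Int.exists_greatest_of_bdd (P := fun i => M i ∈ Set.range L)
    ⟨i₀ + D, fun z hz => hJ i₀ z hi₀ hz⟩ ⟨i₀, hi₀⟩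
  -- the same on the other line
  have hI : ∀ i j, L i ∈ Set.range M → L j ∈ Set.range M → j ≤ i + D := by
    rintro i j ⟨i', hi'⟩ ⟨j', hj'⟩
    have h1 := hJ i' j' ⟨i, hi'.symm⟩ ⟨j, hj'.symm⟩
    have h2 := hJ j' i' ⟨j, hj'.symm⟩ ⟨i, hi'.symm⟩
    have h3 := hb.line.dist hT i' j'
    rw [hi', hj', ha.line.dist hT] at h3
    omega
  obtain ⟨r₀, hr₀⟩ := hi₀
  have hr₀' : L r₀ ∈ Set.range M := ⟨i₀, hr₀.symm⟩
  obtain ⟨p', hp', hpm'⟩ := Int.exists_least_of_bdd (P := fun i => L i ∈ Set.range M)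
    ⟨r₀ - D, fun z hz => by have := hI z r₀ hz hr₀'; omega⟩ ⟨r₀, hr₀'⟩
  obtain ⟨q', hq', hqm'⟩ := Int.exists_greatest_of_bdd (P := fun i => L i ∈ Set.range M)
    ⟨r₀ + D, fun z hz => hI r₀ z hr₀' hz⟩ ⟨r₀, hr₀'⟩
  have hn : 1 ≤ D + 1 := by omega
  refine ⟨D + 1, hn, Or.inr ?_⟩
  have hpq : p ≤ q := hpm q hq
  refine free_of_axis h (axis_pow hb hn) hpq ?_ ?_
  · have h1 := hJ p q hp hq
    have h2 : ((D : ℤ) + 1) * 1 ≤ ((D : ℤ) + 1) * m :=
      mul_le_mul_of_nonneg_left (by have := hb.pos; omega) (by omega)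
    push_cast
    omega
  · intro k hk z hz
    obtain ⟨i, hi, hi'⟩ := hz
    -- the projection to `L`
    obtain ⟨r, hrI, hr⟩ : ∃ r, L r ∈ Set.range M ∧ Pr T L z r := by
      rcases hi' with hi' | hi'
      · obtain ⟨r, hr⟩ := hp
        refine ⟨r, ⟨p, hr.symm⟩, cross hT ha.line hb.line hr.symm hi (Or.inr ⟨hi', fun j hj => ?_⟩)⟩
        have := hpm (p - 1) ⟨j, hj⟩
        omega
      · obtain ⟨r, hr⟩ := hq
        refine ⟨r, ⟨q, hr.symm⟩, cross hT ha.line hb.line hr.symm hi (Or.inl ⟨hi', fun j hj => ?_⟩)⟩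
        have := hqm (q + 1) ⟨j, hj⟩
        omega
    have h1 := Pr.smul h (fun j => (axis_pow ha hn).smul_zpow k j) hr
    have hpos : (D : ℤ) + 1 ≤ ((D + 1) * l : ℕ) := by
      have h2 : ((D : ℤ) + 1) * 1 ≤ ((D : ℤ) + 1) * l :=
        mul_le_mul_of_nonneg_left (by have := ha.pos; omega) (by omega)
      push_cast
      omega
    rcases lt_or_gt_of_ne hk with hk' | hk'
    · -- to the left
      have h2 : k * (((D + 1) * l : ℕ) : ℤ) ≤ -1 * (((D + 1) * l : ℕ) : ℤ) :=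
        mul_le_mul_of_nonneg_right (by omega) (by omega)
      have h3 := hI p' r hp' hrI
      obtain ⟨s, hs⟩ := hp'
      have hsJ : M s ∈ Set.range L := ⟨p', hs.symm⟩
      refine ⟨s, cross hT hb.line ha.line hs.symm h1 (Or.inr ⟨by omega, fun j hj => ?_⟩),
        hpm s hsJ, hqm s hsJ⟩
      have := hpm' (p' - 1) ⟨j, hj⟩
      omega
    · have h2 : 1 * (((D + 1) * l : ℕ) : ℤ) ≤ k * (((D + 1) * l : ℕ) : ℤ) :=
        mul_le_mul_of_nonneg_right (by omega) (by omega)
      have h3 := hI r q' hrI hq'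
      obtain ⟨s, hs⟩ := hq'
      have hsJ : M s ∈ Set.range L := ⟨q', hs.symm⟩
      refine ⟨s, cross hT hb.line ha.line hs.symm h1 (Or.inl ⟨by omega, fun j hj => ?_⟩),
        hpm s hsJ, hqm s hsJ⟩
      have := hqm' (q' + 1) ⟨j, hj⟩
      omega

omit hE in
/-- the lines agree between two common points -/
theorem agree (hT : T.IsTree) {L M : ℤ → V} (hL : IsLine T L) (hM : IsLine T M) {i j i' j' : ℤ}
    (hij : i ≤ j) (hij' : i' ≤ j') (h1 : L i' = M i) (h2 : L j' = M j) {s : ℤ} (hs : 0 ≤ s)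
    (hs' : s ≤ j - i) : M (i + s) = L (i' + s) := by
  have h3 := hM.dist hT i j
  have h4 := hL.dist hT i' j'
  rw [h1, h2] at h4
  refine geod_unique hT (x := M i) (y := M j) ?_ ?_ ?_
  · rw [hM.dist hT, hM.dist hT, hM.dist hT]; omega
  · rw [← h1, ← h2, hL.dist hT, hL.dist hT, hL.dist hT]; omega
  · rw [hM.dist hT]
    rw [← h1, hL.dist hT]
    omega

omit hE in
theorem pat_of_comm {a b : G} {l m : ℕ} (hl : 0 < l) (hm : 0 < m) (h : Commute (a ^ m) (b ^ l)) :
    PAt a b := by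
  refine ⟨m * l, Nat.mul_pos hm hl, Or.inl ?_⟩
  rw [pow_mul a, mul_comm m l, pow_mul b]
  exact (h.pow_left _).pow_right _

theorem hh (h : TreeAct G T) {a b : G} {L M : ℤ → V} {l m : ℕ} (ha : IsAxis T a L l)
    (hb : IsAxis T b M m) : PAt a b := by
  have hT := h.isTree
  by_cases hne : ∃ i, M i ∈ Set.range L
  · by_cases hlong : ∃ i j, M i ∈ Set.range L ∧ M j ∈ Set.range L ∧ i + (2 * (l * m) + 1) ≤ j
    · obtain ⟨i, j, ⟨i', hi'⟩, ⟨j', hj'⟩, hij⟩ := hlong
      have hlm : (0 : ℤ) ≤ (l : ℤ) * m := by positivity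
      rcases le_total i' j' with hc | hc
      · exact pat_of_comm ha.pos hb.pos (hh_long hE h ha hb (i := i) (i' := i') fun s h1 h2 =>
          agree hT ha.line hb.line (by omega) hc hi' hj' h1 (by omega))
      · have hc' : Commute ((a⁻¹) ^ m) (b ^ l) := by
          refine hh_long hE h ha.reverse hb (i := i) (i' := -i') fun s h1 h2 => ?_
          exact agree hT ha.line.reverse hb.line (j := j) (j' := -j') (by omega) (by omega)
            (by simpa using hi') (by simpa using hj') h1 (by omega)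
        rw [inv_pow] at hc'
        exact pat_of_comm ha.pos hb.pos (Commute.inv_left_iff.mp hc')
    · push Not at hlong
      refine hh_short h ha hb hne (2 * (l * m)) fun i j hi hj => ?_
      have := hlong i j hi hj
      push_cast
      omega
  · push Not at hne
    refine of_disjoint h (Chr.axis h ha) (Chr.axis h hb) ?_
    rintro x hx ⟨i, rfl⟩
    exact hne i hx

/-- **The power alternative for groups acting on trees.** -/
theorem pat_of_tree (h : TreeAct G T)
    (hV : ∀ (v : V) (a b : G), a • v = v → b • v = v → PAt a b) (a b : G) : PAt a b := by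
  by_cases ha : ∃ v : V, a • v = v
  · have ha' : (Fx V a).Nonempty := by
      obtain ⟨v, hv⟩ := ha
      exact ⟨v, 1, le_rfl, by rwa [pow_one]⟩
    by_cases hb : ∃ v : V, b • v = v
    · have hb' : (Fx V b).Nonempty := by
        obtain ⟨v, hv⟩ := hb
        exact ⟨v, 1, le_rfl, by rwa [pow_one]⟩
      by_cases hc : ∃ v, v ∈ Fx V a ∧ v ∈ Fx V b
      · obtain ⟨v, ⟨k, hk, hka⟩, ⟨k', hk', hkb⟩⟩ := hc
        exact PAt.of_pow (Nat.mul_pos hk hk') (hV v _ _ (fix_mul hka k')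
          (by rw [mul_comm]; exact fix_mul hkb k))
      · push Not at hc
        exact of_disjoint h (Chr.fx h ha') (Chr.fx h hb') fun x hx => hc x hx
    · push Not at hb
      obtain ⟨M, m, hM⟩ := h.exists_axis hb
      exact eh hE h ha' hM
  · push Not at ha
    obtain ⟨L, l, hL⟩ := h.exists_axis ha
    by_cases hb : ∃ v : V, b • v = v
    · have hb' : (Fx V b).Nonempty := by
        obtain ⟨v, hv⟩ := hb
        exact ⟨v, 1, le_rfl, by rwa [pow_one]⟩
      exact PAt.symm (eh hE h hb' hL)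
    · push Not at hb
      obtain ⟨M, m, hM⟩ := h.exists_axis hb
      exact hh hE h hL hM

end Rigid

end Pool.Agent.H258.TR
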