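import Pool.Agent.H258.TR.Torus
import Pool.Graph.R_seed8.Helper270.Cop

/-! Closure properties of the class of automorphisms whose mapping torus has the power
alternative. -/

set_option autoImplicit false

namespace Pool.Agent.H258.TR

open Pool.Agent.H258.PA Monoid
open Pool.Agent.Q103.PA (PA inj_of_hom)

theorem pa_of_virtual {Q Q' : Type} [Group Q] [Group Q'] (j : Q' →* Q)
    (hj : Function.Injective j) (hp : ∀ g : Q, ∃ m : ℕ, 1 ≤ m ∧ g ^ m ∈ j.range) (h : PA Q') :
    PA Q := by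
  intro a b
  obtain ⟨m, hm, a', ha'⟩ := hp a
  obtain ⟨l, hl, b', hb'⟩ := hp b
  have h1 : PAt (j (a' ^ l)) (j (b' ^ m)) := PAt.map j hj (h _ _)
  rw [map_pow, map_pow, ha', hb', ← pow_mul, ← pow_mul, mul_comm l m] at h1
  exact PAt.of_pow (Nat.mul_pos hm hl) h1

theorem pa_prod {G H : Type} [Group G] [Group H] (hG : PA G) (hH : PA H) : PA (G × H) := by
  rintro ⟨a, a'⟩ ⟨b, b'⟩
  obtain ⟨n, hn, h1 | h1⟩ := hG a b
  · obtain ⟨m, hm, h2 | h2⟩ := hH a' b'
    · refine ⟨n * m, Nat.mul_pos hn hm, Or.inl ?_⟩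
      have e1 : Commute (a ^ (n * m)) (b ^ (n * m)) := by
        rw [pow_mul, pow_mul]; exact (h1.pow_left _).pow_right _
      have e2 : Commute (a' ^ (n * m)) (b' ^ (n * m)) := by
        rw [mul_comm n m, pow_mul, pow_mul]; exact (h2.pow_left _).pow_right _
      exact Prod.ext e1 e2
    · exact ⟨m, hm, Or.inr (inj_of_hom (MonoidHom.snd G H) h2)⟩
  · exact ⟨n, hn, Or.inr (inj_of_hom (MonoidHom.fst G H) h1)⟩

theorem pa_comm {G : Type} [Group G] (h : ∀ a b : G, a * b = b * a) : PA G :=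
  fun _ _ => ⟨1, le_rfl, Or.inl (h _ _)⟩

theorem zpow_embed {G G' : Type} [Group G] [Group G'] {σ : MulAut G} {σ' : MulAut G'}
    (j : G →* G') (h : ∀ x, j (σ x) = σ' (j x)) (m : ℤ) (x : G) :
    j ((σ ^ m) x) = (σ' ^ m) (j x) := by
  induction m generalizing x with
  | zero => simp
  | succ m ih => rw [zpow_add_one, zpow_add_one, MulAut.mul_apply, MulAut.mul_apply, ih, h]
  | pred m ih =>
    rw [zpow_sub_one, zpow_sub_one, MulAut.mul_apply, MulAut.mul_apply, ih]
    congr 1
    refine σ'.injective ?_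
    rw [← h, MulAut.apply_inv_self, MulAut.apply_inv_self]

/-- the map between the mapping tori -/
def torMap {G G' : Type} [Group G] [Group G'] {σ : MulAut G} {σ' : MulAut G'}
    (j : G →* G') (h : ∀ x, j (σ x) = σ' (j x)) : Tor σ →* Tor σ' :=
  SemidirectProduct.map j (MonoidHom.id _) (by
    intro g
    refine MonoidHom.ext fun x => ?_
    simp only [MonoidHom.comp_apply, MulEquiv.coe_toMonoidHom, MonoidHom.id_apply,
      zpowersHom_apply]
    exact zpow_embed j h _ x)

theorem pa_embed {G G' : Type} [Group G] [Group G'] {σ : MulAut G} {σ' : MulAut G'}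
    (j : G →* G') (hj : Function.Injective j) (h : ∀ x, j (σ x) = σ' (j x)) (hP : PA (Tor σ')) :
    PA (Tor σ) := by
  refine pa_of_injective (torMap j h) ?_ hP
  intro a b hab
  have h1 := congrArg SemidirectProduct.left hab
  have h2 := congrArg SemidirectProduct.right hab
  simp only [torMap, SemidirectProduct.map_left, SemidirectProduct.map_right,
    MonoidHom.id_apply] at h1 h2
  exact SemidirectProduct.ext (hj h1) h2

/-- the product of two automorphisms -/
abbrev prodAut {G H : Type} [Group G] [Group H] (σ : MulAut G) (σ' : MulAut H) : MulAut (G × H) :=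
  MulEquiv.prodCongr σ σ'

theorem pa_tor_prod {G H : Type} [Group G] [Group H] {σ : MulAut G} {σ' : MulAut H}
    (hG : PA (Tor σ)) (hH : PA (Tor σ')) : PA (Tor (prodAut σ σ')) := by
  refine pa_of_injective ((torMap (σ := prodAut σ σ') (σ' := σ) (MonoidHom.fst G H)
    fun x => rfl).prod (torMap (σ := prodAut σ σ') (σ' := σ') (MonoidHom.snd G H)
    fun x => rfl)) ?_ (pa_prod hG hH)
  intro a b hab
  have h1 := congrArg Prod.fst hab
  have h2 := congrArg Prod.snd hab
  have h3 := congrArg SemidirectProduct.left h1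
  have h4 := congrArg SemidirectProduct.right h1
  have h5 := congrArg SemidirectProduct.left h2
  simp only [MonoidHom.prod_apply, torMap, SemidirectProduct.map_left,
    SemidirectProduct.map_right, MonoidHom.id_apply, MonoidHom.coe_fst, MonoidHom.coe_snd]
    at h3 h4 h5
  exact SemidirectProduct.ext (Prod.ext h3 h5) h4

/-- free products -/
theorem pa_tor_coprod {G₁ G₂ : Type} [Group G₁] [Group G₂] {σ₁ : MulAut G₁} {σ₂ : MulAut G₂}
    (h₁ : PA (Tor σ₁)) (h₂ : PA (Tor σ₂)) (v : G₁) (σ : MulAut (Coprod G₁ G₂))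
    (hl : ∀ x, σ (Coprod.inl x) = Coprod.inl (σ₁ x))
    (hr : ∀ x, σ (Coprod.inr x) = Coprod.inl v * Coprod.inr (σ₂ x) * Coprod.inl v⁻¹) :
    PA (Tor σ) := by
  -- the automorphism of `(G₁ × G₂) * ℤ`
  let P := FP (G₁ × G₂) 1
  let F : G₁ → (G₁ × G₂ →* G₁ × G₂) → (P →* P) := fun c f =>
    Coprod.lift (Coprod.inl.comp f) (FreeGroup.lift fun i => Coprod.inl (c, 1) * bb _ 1 i)
  have F1 : ∀ c f x, F c f (Coprod.inl x) = Coprod.inl (f x) := fun c f x =>
    Coprod.lift_apply_inl _ _ x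
  have F2 : ∀ c f i, F c f (bb _ 1 i) = Coprod.inl (c, 1) * bb _ 1 i := by
    intro c f i
    have h1 : F c f (bb _ 1 i) = (FreeGroup.lift fun i : Fin 1 =>
        (Coprod.inl (c, 1) * bb (G₁ × G₂) 1 i : P)) (FreeGroup.of i) :=
      Coprod.lift_apply_inr _ _ _
    rw [h1, FreeGroup.lift_apply_of]
  have F3 : ∀ c c' (e e' : MulAut (G₁ × G₂)), e' * e = 1 →
      (e' (c, 1) : G₁ × G₂) * (c', 1) = 1 →
      (F c' e'.toMonoidHom).comp (F c e.toMonoidHom) = MonoidHom.id _ := by
    intro c c' e e' he hc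
    refine Coprod.hom_ext (MonoidHom.ext fun x => ?_) (FreeGroup.ext_hom _ _ fun i => ?_)
    · change F c' e'.toMonoidHom (F c e.toMonoidHom (Coprod.inl x)) = Coprod.inl x
      rw [F1, F1]
      change (Coprod.inl ((e' * e) x) : P) = _
      rw [he]
      rfl
    · change F c' e'.toMonoidHom (F c e.toMonoidHom (bb (G₁ × G₂) 1 i)) = bb (G₁ × G₂) 1 i
      rw [F2, map_mul, F1, F2, ← mul_assoc, ← map_mul]
      change (Coprod.inl ((e' (c, 1) : G₁ × G₂) * (c', 1)) : P) * bb (G₁ × G₂) 1 i = _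
      rw [hc, map_one, one_mul]
  let e : MulAut (G₁ × G₂) := prodAut σ₁ σ₂
  let c' : G₁ := (σ₁⁻¹ : MulAut G₁) v⁻¹
  have he1 : e⁻¹ * e = 1 := inv_mul_cancel e
  have he2 : e * e⁻¹ = 1 := mul_inv_cancel e
  have hc1 : ((e⁻¹ : MulAut (G₁ × G₂)) (v, 1) : G₁ × G₂) * (c', 1) = 1 := by
    have h3 : ((e⁻¹ : MulAut (G₁ × G₂)) (v, 1) : G₁ × G₂) = ((σ₁⁻¹ : MulAut G₁) v, 1) := by
      rw [MulAut.inv_apply, MulEquiv.symm_apply_eq]
      refine Prod.ext ?_ ?_
      · change v = σ₁ ((σ₁⁻¹ : MulAut G₁) v)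
        rw [MulAut.inv_apply, MulEquiv.apply_symm_apply]
      · change 1 = σ₂ 1
        rw [map_one]
    rw [h3]
    refine Prod.ext ?_ (mul_one _)
    change (σ₁⁻¹ : MulAut G₁) v * (σ₁⁻¹ : MulAut G₁) v⁻¹ = 1
    rw [← map_mul, mul_inv_cancel, map_one]
  have hc2 : (e (c', 1) : G₁ × G₂) * (v, 1) = 1 := by
    refine Prod.ext ?_ ?_
    · change σ₁ ((σ₁⁻¹ : MulAut G₁) v⁻¹) * v = 1
      rw [MulAut.inv_apply, MulEquiv.apply_symm_apply, inv_mul_cancel]
    · change σ₂ 1 * 1 = 1
      rw [map_one, mul_one]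
  let σ' : MulAut P := MonoidHom.toMulEquiv (F v e.toMonoidHom) (F c' (e⁻¹).toMonoidHom)
    (F3 _ _ e e⁻¹ he1 hc1) (F3 _ _ e⁻¹ e he2 hc2)
  have s1 : ∀ x, σ' (Coprod.inl x) = Coprod.inl (e x) := fun x => F1 v e.toMonoidHom x
  have s2 : ∀ i, σ' (bb _ 1 i) = Coprod.inl (v, 1) * bb _ 1 i := fun i => F2 v e.toMonoidHom i
  have hTri : Tri (N := 1) e σ' := by
    refine ⟨s1, fun i => ⟨Coprod.inl (v, 1), HH_inl _ _, 1, Subgroup.one_mem _, ?_⟩⟩
    rw [s2, mul_one]
  -- the embedding
  let b : P := bb _ 1 0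
  let δ : Coprod G₁ G₂ →* P := Coprod.lift (Coprod.inl.comp (MonoidHom.inl G₁ G₂))
    (((MulAut.conj b).toMonoidHom.comp Coprod.inl).comp (MonoidHom.inr G₁ G₂))
  have d1 : ∀ x, δ (Coprod.inl x) = Coprod.inl (x, 1) := fun x => Coprod.lift_apply_inl _ _ x
  have d2 : ∀ x, δ (Coprod.inr x) = b * Coprod.inl (1, x) * b⁻¹ := fun x =>
    Coprod.lift_apply_inr _ _ x
  have hδ : Function.Injective δ := by
    let q : P →* Pool.Agent.Helper270.Cop.E G₁ G₂ :=
      Coprod.lift HNNExtension.of (FreeGroup.lift fun _ => HNNExtension.t)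
    have q1 : ∀ x, q (Coprod.inl x) = HNNExtension.of x := fun x => Coprod.lift_apply_inl _ _ x
    have q2 : q b = HNNExtension.t := by
      have h1 : q b = (FreeGroup.lift fun _ : Fin 1 =>
          (HNNExtension.t : Pool.Agent.Helper270.Cop.E G₁ G₂)) (FreeGroup.of 0) :=
        Coprod.lift_apply_inr _ _ _
      rw [h1, FreeGroup.lift_apply_of]
    have h1 : q.comp δ = Pool.Agent.Helper270.Cop.emb := by
      refine Coprod.hom_ext (MonoidHom.ext fun x => ?_) (MonoidHom.ext fun x => ?_)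
      · change q (δ (Coprod.inl x)) = Pool.Agent.Helper270.Cop.emb (Coprod.inl x)
        rw [d1, q1, Pool.Agent.Helper270.Cop.emb_inl]
      · change q (δ (Coprod.inr x)) = Pool.Agent.Helper270.Cop.emb (Coprod.inr x)
        rw [d2, map_mul, map_mul, map_inv, q1, q2, Pool.Agent.Helper270.Cop.emb_inr]
    have h2 := Pool.Agent.Helper270.Cop.emb_inj (M := G₁) (N := G₂)
    rw [← h1, MonoidHom.coe_comp] at h2
    exact h2.of_comp
  refine pa_embed δ hδ ?_ (pa_tor hTri (pa_tor_prod h₁ h₂))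
  have h3 : δ.comp σ.toMonoidHom = σ'.toMonoidHom.comp δ := by
    refine Coprod.hom_ext (MonoidHom.ext fun x => ?_) (MonoidHom.ext fun x => ?_)
    · change δ (σ (Coprod.inl x)) = σ' (δ (Coprod.inl x))
      rw [hl, d1, d1, s1]
      congr 1
      exact Prod.ext rfl (map_one σ₂).symm
    · change δ (σ (Coprod.inr x)) = σ' (δ (Coprod.inr x))
      have s2b : σ' b = Coprod.inl (v, 1) * b := s2 0
      rw [hr, map_mul, map_mul, d1, d1, d2, d2, map_mul, map_mul, map_inv, s1, s2b]
      have e1 : (e (1, x) : G₁ × G₂) = (1, σ₂ x) := Prod.ext (map_one σ₁) rfl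
      have e2 : (Coprod.inl (v⁻¹, (1 : G₂)) : P) = (Coprod.inl (v, 1))⁻¹ := by
        rw [← map_inv]
        congr 1
        exact Prod.ext rfl inv_one.symm
      rw [e1, e2, mul_inv_rev]
      simp only [mul_assoc]
  exact fun x => DFunLike.congr_fun h3 x

/-- roots, inner automorphisms and overgroups of finite index -/
theorem pa_tor_virtual {G : Type} [Group G] (σ : MulAut G) (H : Subgroup G) (hH : H.index ≠ 0)
    (φ : MulAut H) {k : ℕ} (hk : 0 < k) (w : G)
    (hw : ∀ x : H, (σ ^ k) (x : G) = w * (φ x : G) * w⁻¹) (hP : PA (Tor φ)) : PA (Tor σ) := by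
  set s : Tor σ := SemidirectProduct.inl w⁻¹ * (SemidirectProduct.inr gen) ^ k with hs
  have hgk : ∀ (m : ℕ) (x : G), (SemidirectProduct.inr gen : Tor σ) ^ m * SemidirectProduct.inl x
      = SemidirectProduct.inl ((σ ^ m) x) * (SemidirectProduct.inr gen) ^ m := by
    intro m
    induction m with
    | zero => intro x; simp
    | succ m ih =>
      intro x
      rw [pow_succ (SemidirectProduct.inr gen : Tor σ), mul_assoc, inr_inl, ← mul_assoc, ih,
        pow_succ σ, MulAut.mul_apply, mul_assoc]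
  have hs1 : ∀ x : H, s * SemidirectProduct.inl (x : G) * s⁻¹
      = SemidirectProduct.inl ((φ x : H) : G) := by
    intro x
    rw [mul_inv_eq_iff_eq_mul, hs, mul_assoc, hgk, hw, map_mul, map_mul, map_inv]
    group
  have hsz : ∀ (m : ℤ) (x : H), s ^ m * SemidirectProduct.inl (x : G) * (s ^ m)⁻¹
      = SemidirectProduct.inl (((φ ^ m) x : H) : G) := by
    intro m
    induction m with
    | zero => intro x; simp
    | succ m ih =>
      intro x
      rw [zpow_add_one φ, MulAut.mul_apply, ← ih, ← hs1, zpow_add_one]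
      group
    | pred m ih =>
      intro x
      rw [zpow_sub_one φ, MulAut.mul_apply, ← ih]
      have h1 := hs1 ((φ⁻¹) x)
      rw [MulAut.inv_apply, MulEquiv.apply_symm_apply] at h1
      rw [MulAut.inv_apply, ← h1, zpow_sub_one]
      group
  let j : Tor φ →* Tor σ := SemidirectProduct.lift (SemidirectProduct.inl.comp H.subtype)
    (zpowersHom _ s) (by
      intro g
      refine MonoidHom.ext fun x => ?_
      simp only [MonoidHom.comp_apply, MulEquiv.coe_toMonoidHom, zpowersHom_apply,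
        MulAut.conj_apply]
      exact (hsz _ x).symm)
  have hgen : ∀ m : ℤ, gen ^ m = Multiplicative.ofAdd m := by
    intro m
    rw [← ofAdd_zsmul, smul_eq_mul, mul_one]
  have hrs : SemidirectProduct.rightHom s = Multiplicative.ofAdd (k : ℤ) := by
    rw [hs, map_mul, map_pow, SemidirectProduct.rightHom_inl, SemidirectProduct.rightHom_inr,
      one_mul, ← zpow_natCast, hgen]
  have hjap : ∀ a : Tor φ, j a = SemidirectProduct.inl ((a.left : H) : G)
      * s ^ (Multiplicative.toAdd a.right) := by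
    intro a
    rfl
  have hj : Function.Injective j := by
    rw [injective_iff_map_eq_one]
    intro a ha
    rw [hjap] at ha
    have h1 := congrArg SemidirectProduct.rightHom ha
    rw [map_mul, SemidirectProduct.rightHom_inl, one_mul, map_zpow, hrs, map_one,
      ← ofAdd_zsmul, smul_eq_mul] at h1
    have h2 : Multiplicative.toAdd a.right * (k : ℤ) = 0 := congrArg Multiplicative.toAdd h1
    have h3 : Multiplicative.toAdd a.right = 0 := by
      rcases mul_eq_zero.mp h2 with h | h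
      · exact h
      · omega
    rw [h3, zpow_zero, mul_one] at ha
    have h4 : ((a.left : H) : G) = 1 := by
      have := SemidirectProduct.inl_injective (ha.trans (map_one SemidirectProduct.inl).symm)
      exact this
    refine SemidirectProduct.ext ?_ ?_
    · exact Subtype.ext h4
    · exact Multiplicative.toAdd.injective h3
  refine pa_of_virtual j hj ?_ hP
  intro g
  -- the elements of degree divisible by `k`
  have hdec : ∀ q : Tor σ, (∃ z : ℤ, SemidirectProduct.rightHom q = Multiplicative.ofAdd (k * z)) →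
      ∃ (y : G) (z : ℤ), q = SemidirectProduct.inl y * s ^ z := by
    rintro q ⟨z, hz⟩
    have h1 : SemidirectProduct.rightHom (q * (s ^ z)⁻¹) = 1 := by
      rw [map_mul, map_inv, map_zpow, hrs, hz, ← ofAdd_zsmul, smul_eq_mul, mul_comm z,
        mul_inv_cancel]
    have h2 : q * (s ^ z)⁻¹ ∈ (SemidirectProduct.inl : G →* Tor σ).range := by
      rw [SemidirectProduct.range_inl_eq_ker_rightHom]
      exact h1
    obtain ⟨y, hy⟩ := h2
    exact ⟨y, z, by rw [hy, inv_mul_cancel_right]⟩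
  have hpow : ∀ i : ℕ, ∃ (y : G) (z : ℤ), g ^ (k * i) = SemidirectProduct.inl y * s ^ z := by
    intro i
    refine hdec _ ⟨Multiplicative.toAdd (SemidirectProduct.rightHom g) * i, ?_⟩
    rw [map_pow, ← zpow_natCast]
    refine Multiplicative.toAdd.injective ?_
    rw [toAdd_zpow, toAdd_ofAdd]
    push_cast
    rw [smul_eq_mul]
    ring
  choose y z hyz using hpow
  have hfin : Finite (G ⧸ H) := by
    by_contra hinf
    rw [not_finite_iff_infinite] at hinf
    exact hH (Nat.card_eq_zero_of_infinite)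
  obtain ⟨i, i', hii, he⟩ := Finite.exists_ne_map_eq_of_infinite
    (fun i : ℕ => (QuotientGroup.mk (y i) : G ⧸ H))
  have main : ∀ i i' : ℕ, i < i' → (QuotientGroup.mk (y i) : G ⧸ H) = QuotientGroup.mk (y i') →
      ∃ m : ℕ, 1 ≤ m ∧ g ^ m ∈ j.range := by
    intro i i' hlt he
    rw [QuotientGroup.eq] at he
    refine ⟨k * (i' - i), Nat.mul_pos hk (by omega), ?_⟩
    have h1 : g ^ (k * (i' - i)) = (g ^ (k * i))⁻¹ * g ^ (k * i') := by
      rw [eq_inv_mul_iff_mul_eq, ← pow_add]
      congr 1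
      rw [← mul_add]
      congr 1
      omega
    rw [h1, hyz, hyz]
    have h2 : (SemidirectProduct.inl (y i) * s ^ z i)⁻¹ * (SemidirectProduct.inl (y i') * s ^ z i')
        = (s ^ z i)⁻¹ * SemidirectProduct.inl ((y i)⁻¹ * y i') * s ^ z i' := by
      rw [map_mul, map_inv]
      group
    rw [h2]
    have h3 : s ∈ j.range := ⟨SemidirectProduct.inr gen, by
      rw [hjap]
      simp⟩
    have h4 : SemidirectProduct.inl ((y i)⁻¹ * y i') ∈ j.range :=
      ⟨SemidirectProduct.inl ⟨_, he⟩, by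
        rw [hjap]
        simp⟩
    exact Subgroup.mul_mem _ (Subgroup.mul_mem _ (Subgroup.inv_mem _ (Subgroup.zpow_mem _ h3 _)) h4)
      (Subgroup.zpow_mem _ h3 _)
  rcases lt_or_gt_of_ne hii with h | h
  · exact main i i' h he
  · exact main i' i h he.symm

end Pool.Agent.H258.TR
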