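import Pool.Agent.H258.TR.Cases

/-! HNN extensions with associated subgroups which embed in an abelian quotient, and mapping tori of
triangular automorphisms. -/

set_option autoImplicit false

namespace Pool.Agent.H258.TR

open Pool.Agent.Helper270.Tree Pool.Agent.Helper270.HNN SimpleGraph Pool.Agent.H258.PA HNNExtension
open Pool.Agent.Q103.PA (PA)

theorem pat_conj {G : Type} [Group G] {a b : G} (c : G) (h : PAt (c⁻¹ * a * c) (c⁻¹ * b * c)) :
    PAt a b := by
  have h1 := PAt.map (MulAut.conj c).toMonoidHom (MulAut.conj c).injective h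
  have e : ∀ x : G, (MulAut.conj c).toMonoidHom (c⁻¹ * x * c) = x := by
    intro x
    change c * (c⁻¹ * x * c) * c⁻¹ = x
    group
  rwa [e, e] at h1

/-- the extension of a homomorphism to the HNN extension, trivial on the stable letter -/
def extT {Γ : Type} [Group Γ] {A B : Subgroup Γ} (φ : A ≃* B) {P : Type} [CommGroup P]
    (τ : Γ →* P) (hτ : ∀ a : A, τ (φ a) = τ a) : HNNExtension Γ A B φ →* P :=
  HNNExtension.lift τ 1 fun a => by rw [one_mul, mul_one]; exact (hτ a).symm

theorem pa_hnn {Γ : Type} [Group Γ] {A B : Subgroup Γ} (φ : A ≃* B) {P : Type} [CommGroup P]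
    (τ : Γ →* P) (hτ : ∀ a : A, τ (φ a) = τ a) (hinj : ∀ a ∈ A, τ a = 1 → a = 1) (hΓ : PA Γ) :
    PA (HNNExtension Γ A B φ) := by
  intro a b
  have key : ∀ (x : HNNExtension Γ A B φ), x • (vt 1 : Vert φ) = vt 1 →
      x • (vt t⁻¹ : Vert φ) = vt t⁻¹ → extT φ τ hτ x = 1 → x = 1 := by
    intro x h1 h2 h3
    have h4 : x ∈ A.map (of : Γ →* HNNExtension Γ A B φ) := by
      rw [← stab_edge, Subgroup.mem_inf]
      exact ⟨h1, h2⟩
    obtain ⟨y, hy, rfl⟩ := Subgroup.mem_map.mp h4
    rw [extT, HNNExtension.lift_of] at h3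
    rw [hinj y hy h3, map_one]
  refine pat_of_tree (T := graph φ) (τ := extT φ τ hτ) ?_ treeAct ?_ a b
  · intro v w hadj g hv hw hg
    obtain ⟨c, ⟨rfl, rfl⟩ | ⟨rfl, rfl⟩⟩ := one_orbit hadj
    · have h5 : c⁻¹ * g * c = 1 := by
        refine key _ ?_ ?_ ?_
        · rw [mul_smul, mul_smul, inv_smul_eq_iff]; exact hv
        · rw [mul_smul, mul_smul, inv_smul_eq_iff]; exact hw
        · rw [map_mul, map_mul, map_inv, hg, mul_one, inv_mul_cancel]
      rw [show g = c * (c⁻¹ * g * c) * c⁻¹ by group, h5]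
      group
    · have h5 : c⁻¹ * g * c = 1 := by
        refine key _ ?_ ?_ ?_
        · rw [mul_smul, mul_smul, inv_smul_eq_iff]; exact hw
        · rw [mul_smul, mul_smul, inv_smul_eq_iff]; exact hv
        · rw [map_mul, map_mul, map_inv, hg, mul_one, inv_mul_cancel]
      rw [show g = c * (c⁻¹ * g * c) * c⁻¹ by group, h5]
      group
  · intro v x y hx hy
    obtain ⟨c, rfl⟩ := exists_vt v
    have e : ∀ z : HNNExtension Γ A B φ, z • (vt c : Vert φ) = vt c → ∃ u, c⁻¹ * z * c = of u := by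
      intro z hz
      refine (stab_one _).mp ?_
      have : (vt c : Vert φ) = c • vt 1 := by rw [smul_vt, mul_one]
      rw [this] at hz
      rw [mul_smul, mul_smul, inv_smul_eq_iff]
      exact hz
    obtain ⟨u, hu⟩ := e x hx
    obtain ⟨u', hu'⟩ := e y hy
    refine pat_conj c ?_
    rw [hu, hu']
    exact PAt.map of (of_injective φ) (hΓ u u')

end Pool.Agent.H258.TR
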