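import Pool.Agent.H258.PA.Raag
import Pool.Graph.R_seed8.Helper270.HNN

/-! Ping-pong for two isometries of a tree. -/

set_option autoImplicit false

namespace Pool.Agent.H258.TR

open Pool.Agent.Helper270.Tree SimpleGraph Pool.Agent.H258.PA
open scoped Pointwise

/-- ping-pong with all nonzero powers of two elements -/
theorem free_of_pp {G V : Type} [Group G] [MulAction G V] {a b : G} (Xa Xb : Set V)
    (ha : Xa.Nonempty) (hb : Xb.Nonempty) (hd : Disjoint Xa Xb)
    (h1 : ∀ k : ℤ, k ≠ 0 → ∀ z ∈ Xb, a ^ k • z ∈ Xa)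
    (h2 : ∀ k : ℤ, k ≠ 0 → ∀ z ∈ Xa, b ^ k • z ∈ Xb) :
    Function.Injective (FreeGroup.lift ![a, b]) := by
  have e : FreeGroup.lift ![a, b] =
      (Monoid.CoprodI.lift fun i => FreeGroup.lift fun _ => (![a, b] : Fin 2 → G) i).comp
        (@freeGroupEquivCoprodI (Fin 2)).toMonoidHom := by
    ext i
    simp
  rw [e, MonoidHom.coe_comp]
  refine Function.Injective.comp ?_ (MulEquiv.injective freeGroupEquivCoprodI)
  refine Monoid.CoprodI.lift_injective_of_ping_pong
    (fun i : Fin 2 => (FreeGroup.lift fun _ : Unit => (![a, b] : Fin 2 → G) i)) ?_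
    (fun i : Fin 2 => (![Xa, Xb] : Fin 2 → Set V) i) ?_ ?_ ?_
  · right
    refine ⟨0, ?_⟩
    rw [FreeGroup.freeGroupUnitEquivInt.cardinal_eq, Cardinal.mk_denumerable]
    exact Cardinal.natCast_le_aleph0
  · intro i
    fin_cases i
    · exact ha
    · exact hb
  · intro i j hij
    fin_cases i <;> fin_cases j
    · exact (hij rfl).elim
    · exact hd
    · exact hd.symm
    · exact (hij rfl).elim
  · intro i j hij
    refine FreeGroup.freeGroupUnitEquivInt.forall_congr_left.mpr ?_
    intro n hne1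
    change FreeGroup.lift (fun _ => (![a, b] : Fin 2 → G) i) (FreeGroup.of () ^ n) •
      (![Xa, Xb] : Fin 2 → Set V) j ⊆ (![Xa, Xb] : Fin 2 → Set V) i
    rw [map_zpow, FreeGroup.lift_apply_of]
    have hnne0 : n ≠ 0 := by
      rintro rfl
      apply hne1
      simp [FreeGroup.freeGroupUnitEquivInt]
    rintro _ ⟨z, hz, rfl⟩
    fin_cases i <;> fin_cases j
    · exact (hij rfl).elim
    · exact h1 n hnne0 z hz
    · exact h2 n hnne0 z hz
    · exact (hij rfl).elim

theorem free_symm {G : Type} [Group G] {a b : G}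
    (h : Function.Injective (FreeGroup.lift ![a, b])) :
    Function.Injective (FreeGroup.lift ![b, a]) := by
  have e : FreeGroup.lift ![b, a] = (FreeGroup.lift ![a, b]).comp
      (FreeGroup.freeGroupCongr (Equiv.swap (0 : Fin 2) 1)).toMonoidHom := by
    ext i
    fin_cases i <;> simp
  rw [e, MonoidHom.coe_comp]
  exact h.comp (MulEquiv.injective _)

theorem PAt.symm {G : Type} [Group G] {a b : G} (h : PAt a b) : PAt b a := by
  obtain ⟨n, hn, h | h⟩ := h
  · exact ⟨n, hn, Or.inl h.symm⟩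
  · exact ⟨n, hn, Or.inr (free_symm h)⟩

theorem PAt.of_pow {G : Type} [Group G] {a b : G} {k : ℕ} (hk : 1 ≤ k) (h : PAt (a ^ k) (b ^ k)) :
    PAt a b := by
  obtain ⟨n, hn, h⟩ := h
  refine ⟨k * n, Nat.mul_pos hk hn, ?_⟩
  rwa [pow_mul, pow_mul]

section Tree

variable {G V : Type} [Group G] [MulAction G V] {T : SimpleGraph V}

/-- `M i` is the projection of `z` to the line `M` -/
def Pr (T : SimpleGraph V) (M : ℤ → V) (z : V) (i : ℤ) : Prop :=
  ∀ j, T.dist z (M j) = T.dist z (M i) + (j - i).natAbs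

theorem Pr.unique {M : ℤ → V} {z : V} {i j : ℤ} (h : Pr T M z i) (h' : Pr T M z j) : i = j := by
  have h1 := h j
  have h2 := h' i
  omega

theorem Pr.self (hT : T.IsTree) {M : ℤ → V} (hM : IsLine T M) (i : ℤ) : Pr T M (M i) i := by
  intro j
  rw [hM.dist hT, hM.dist hT]
  omega

theorem Pr.smul (h : TreeAct G T) {M : ℤ → V} {g : G} {c : ℤ} (hg : ∀ i, g • M i = M (i + c))
    {z : V} {i : ℤ} (hz : Pr T M z i) : Pr T M (g • z) (i + c) := by
  intro j
  have h1 := hz (j - c)
  have h2 := h.dist_smul g z (M (j - c))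
  have h3 := h.dist_smul g z (M i)
  rw [hg, show j - c + c = j by ring] at h2
  rw [hg] at h3
  omega

/-- the two neighbours on the line are farther away -/
theorem Pr.of_local (hT : T.IsTree) {M : ℤ → V} (hM : IsLine T M) {z : V} {i : ℤ}
    (h1 : T.dist z (M (i + 1)) = T.dist z (M i) + 1)
    (h2 : T.dist z (M (i - 1)) = T.dist z (M i) + 1) : Pr T M z i := by
  intro j
  rcases le_total i j with h | h
  · have h3 := hM.away hT z i h1 (j - i).toNat
    rw [show i + ((j - i).toNat : ℤ) = j by omega] at h3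
    rw [h3]; omega
  · have h4 : T.dist z (M (-(-i + 1))) = T.dist z (M (- -i)) + 1 := by
      rw [show -(-i + 1) = i - 1 by ring, neg_neg]
      exact h2
    have h3 := hM.reverse.away hT z (-i) h4 (i - j).toNat
    rw [show -(-i + ((i - j).toNat : ℤ)) = j by omega, neg_neg] at h3
    rw [h3]; omega

/-- the vertex `v` is between `z` and its neighbour `u`, which is not on the line through
`v = M i`: then `v` is the projection of `z`, if `z` is behind `u` -/
theorem Pr.of_behind (hT : T.IsTree) {M : ℤ → V} (hM : IsLine T M) {z u : V} {i : ℤ}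
    (hadj : T.Adj u (M i)) (h1 : u ≠ M (i + 1)) (h2 : u ≠ M (i - 1))
    (hz : T.dist z (M i) = T.dist z u + 1) : Pr T M z i := by
  refine Pr.of_local hT hM ?_ ?_
  · exact junction hT hadj (hM.adj i) h1 hz
  · have h3 := (hM.adj (i - 1)).symm
    rw [show i - 1 + 1 = i by ring] at h3
    exact junction hT hadj h3 h2 hz

/-- the vertices which project to `M j`, `p ≤ j ≤ q` -/
def Mid (T : SimpleGraph V) (M : ℤ → V) (p q : ℤ) : Set V := {z | ∃ i, Pr T M z i ∧ p ≤ i ∧ i ≤ q}

/-- the other vertices -/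
def Out (T : SimpleGraph V) (M : ℤ → V) (p q : ℤ) : Set V := {z | ∃ i, Pr T M z i ∧ (i < p ∨ q < i)}

/-- ping-pong with a hyperbolic element -/
theorem free_of_axis (h : TreeAct G T) {a b : G} {M : ℤ → V} {m : ℕ} (hb : IsAxis T b M m)
    {p q : ℤ} (hpq : p ≤ q) (hm : q - p < m)
    (ha : ∀ k : ℤ, k ≠ 0 → ∀ z ∈ Out T M p q, a ^ k • z ∈ Mid T M p q) :
    Function.Injective (FreeGroup.lift ![a, b]) := by
  refine free_of_pp (Mid T M p q) (Out T M p q) ⟨M p, p, Pr.self h.isTree hb.line p, le_rfl, hpq⟩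
    ⟨M (q + 1), q + 1, Pr.self h.isTree hb.line _, Or.inr (by omega)⟩ ?_ ha ?_
  · rw [Set.disjoint_left]
    rintro z ⟨i, hi, h1, h2⟩ ⟨j, hj, h3⟩
    have := hi.unique hj
    omega
  · rintro k hk z ⟨i, hi, h1, h2⟩
    refine ⟨i + k * m, Pr.smul h (fun j => hb.smul_zpow k j) hi, ?_⟩
    rcases lt_or_gt_of_ne hk with hk' | hk'
    · left
      have : k * (m : ℤ) ≤ -1 * m := mul_le_mul_of_nonneg_right (by omega) (by omega)
      omega
    · right
      have : 1 * (m : ℤ) ≤ k * m := mul_le_mul_of_nonneg_right (by omega) (by omega)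
      omega

/-- every nonzero power of `a` maps the vertices behind the edge from `x` to `x'` to vertices
on the other side -/
def Br (T : SimpleGraph V) (a : G) (x x' : V) : Prop :=
  ∀ k : ℤ, k ≠ 0 → ∀ z, T.dist z x = T.dist z x' + 1 →
    T.dist (a ^ k • z) x' = T.dist (a ^ k • z) x + 1

theorem Br.elliptic (h : TreeAct G T) {a : G} {x x' : V} (hadj : T.Adj x x') (hx : a • x = x)
    (hx' : ∀ k : ℤ, k ≠ 0 → a ^ k • x' ≠ x') : Br T a x x' := by
  intro k hk z hz
  have h1 : a ^ k • x = x := by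
    have : a ∈ MulAction.stabilizer G x := hx
    exact Subgroup.zpow_mem _ this k
  have h2 := h.dist_smul (a ^ k) z x
  have h3 := h.dist_smul (a ^ k) z x'
  rw [h1] at h2
  have h4 : T.Adj (a ^ k • x') x := by
    have := h.adj (a ^ k) _ _ hadj.symm
    rwa [h1] at this
  exact junction h.isTree h4 hadj (hx' k hk) (by omega)

theorem Br.axis (h : TreeAct G T) {a : G} {L : ℤ → V} {l : ℕ} (ha : IsAxis T a L l) {i : ℤ}
    {x' : V} (hadj : T.Adj (L i) x') (hx' : ∀ j, L j ≠ x') : Br T a (L i) x' := by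
  intro k hk z hz
  have h1 : Pr T L z i := Pr.of_behind h.isTree ha.line hadj.symm (hx' _).symm (hx' _).symm hz
  have h2 := Pr.smul h (fun j => ha.smul_zpow k j) h1
  have hne : k * (l : ℤ) ≠ 0 := mul_ne_zero hk (by have := ha.pos; omega)
  rcases lt_or_gt_of_ne hne with h3 | h3
  · -- the next vertex is `L (i - 1)`
    have h4 := h2 i
    have h5 := h2 (i - 1)
    have h6 := ha.line.adj (i - 1)
    rw [show i - 1 + 1 = i by ring] at h6
    exact junction h.isTree h6 hadj (hx' _) (by omega)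
  · have h4 := h2 i
    have h5 := h2 (i + 1)
    exact junction h.isTree (ha.line.adj i).symm hadj (hx' _) (by omega)

/-- ping-pong along a path -/
theorem free_of_bridge (h : TreeAct G T) {a b : G} (w : ℕ → V) {n : ℕ} (hn : 0 < n)
    (hadj : ∀ i < n, T.Adj (w i) (w (i + 1))) (hnb : ∀ i, i + 2 ≤ n → w i ≠ w (i + 2))
    (ha : Br T a (w 0) (w 1)) (hb : Br T b (w n) (w (n - 1))) :
    Function.Injective (FreeGroup.lift ![a, b]) := by
  have hT := h.isTree
  -- the reversed path
  have key : ∀ (w : ℕ → V) (a : G), (∀ i < n, T.Adj (w i) (w (i + 1))) →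
      (∀ i, i + 2 ≤ n → w i ≠ w (i + 2)) → Br T a (w 0) (w 1) → ∀ k : ℤ, k ≠ 0 →
      ∀ z, T.dist z (w 0) = T.dist z (w n) + n →
        T.dist (a ^ k • z) (w n) = T.dist (a ^ k • z) (w 0) + n := by
    intro w a hadj hnb ha k hk z hz
    have h0 : ∀ i ≤ n, T.dist (w 0) (w i) = i := nb' hT w n hadj hnb
    have h1 : T.dist z (w 0) = T.dist z (w 1) + 1 := by
      have h2 := hT.connected.dist_triangle (u := z) (v := w 1) (w := w 0)
      have h3 := hT.connected.dist_triangle (u := z) (v := w n) (w := w 1)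
      have h4 : T.dist (w n) (w 1) ≤ n - 1 := by
        have h5 := nb' hT (fun i => w (i + 1)) (n - 1) (fun i hi => hadj (i + 1) (by omega))
          (fun i hi => hnb (i + 1) (by omega)) (n - 1) le_rfl
        simp only [zero_add] at h5
        rw [show n - 1 + 1 = n by omega] at h5
        rw [SimpleGraph.dist_comm, h5]
      have h6 := h0 1 (by omega)
      rw [SimpleGraph.dist_comm (u := w 1)] at h2
      rcases hT.dist_eq_dist_add_one_of_adj z (hadj 0 hn) with h7 | h7
      · rw [zero_add] at h7; omega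
      · rw [zero_add] at h7; omega
    exact nb hT w n hadj hnb _ (fun _ => ha k hk z h1) n le_rfl
  have hdn := nb' hT w n hadj hnb n le_rfl
  refine free_of_pp {z | T.dist z (w n) = T.dist z (w 0) + n}
    {z | T.dist z (w 0) = T.dist z (w n) + n} ⟨w 0, ?_⟩ ⟨w n, ?_⟩ ?_ ?_ ?_
  · simp only [Set.mem_ofPred_eq, SimpleGraph.dist_self]; omega
  · simp only [Set.mem_ofPred_eq, SimpleGraph.dist_self]
    rw [SimpleGraph.dist_comm]; omega
  · rw [Set.disjoint_left]
    intro z h1 h2
    simp only [Set.mem_ofPred_eq] at h1 h2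
    omega
  · exact fun k hk z hz => key w a hadj hnb ha k hk z hz
  · intro k hk z hz
    have := key (fun i => w (n - i)) b (fun i hi => by
      have h1 := (hadj (n - (i + 1)) (by omega)).symm
      rwa [show n - (i + 1) + 1 = n - i by omega] at h1) (fun i hi => by
      have h1 := hnb (n - (i + 2)) (by omega)
      rw [show n - (i + 2) + 2 = n - i by omega] at h1
      exact h1.symm) hb k hk z (by simpa using hz)
    simpa using this

end Tree

end Pool.Agent.H258.TR
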