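import Pool.Agent.H258.TR.Hnn

/-! The power alternative for mapping tori of triangular automorphisms. -/

set_option autoImplicit false

namespace Pool.Agent.H258.TR

open Pool.Agent.H258.PA HNNExtension Monoid
open Pool.Agent.Q103.PA (PA)

/-- the mapping torus `G ⋊ ℤ` of an automorphism -/
abbrev Tor {G : Type} [Group G] (σ : MulAut G) : Type :=
  G ⋊[zpowersHom (MulAut G) σ] Multiplicative ℤ

abbrev gen : Multiplicative ℤ := Multiplicative.ofAdd 1

theorem inr_inl {G : Type} [Group G] (σ : MulAut G) (g : G) :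
    (SemidirectProduct.inr gen : Tor σ) * SemidirectProduct.inl g =
      SemidirectProduct.inl (σ g) * SemidirectProduct.inr gen := by
  have h := SemidirectProduct.inl_aut (φ := zpowersHom (MulAut G) σ) gen g
  rw [zpowersHom_apply, toAdd_ofAdd, zpow_one] at h
  rw [h]
  simp

/-- an isomorphism between the cyclic groups generated by two elements with the same image, a
generator of an infinite cyclic group -/
theorem exists_iso {Γ : Type} [Group Γ] (τ : Γ →* Multiplicative ℤ) {x y : Γ} (hx : τ x = gen)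
    (hy : τ y = gen) : ∃ φ : Subgroup.zpowers x ≃* Subgroup.zpowers y,
      (∀ a, τ (φ a) = τ a) ∧ (∀ a ∈ Subgroup.zpowers x, τ a = 1 → a = 1) ∧
      ∀ m : ℤ, (φ ⟨x ^ m, m, rfl⟩ : Γ) = y ^ m := by
  have hpow : ∀ m : ℤ, gen ^ m = Multiplicative.ofAdd m := by
    intro m
    rw [← ofAdd_zsmul, smul_eq_mul, mul_one]
  have key : ∀ z : Γ, τ z = gen →
      Function.Bijective (τ.comp (Subgroup.zpowers z).subtype) ∧
        ∀ a ∈ Subgroup.zpowers z, τ a = 1 → a = 1 := by
    intro z hz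
    have h1 : ∀ a ∈ Subgroup.zpowers z, τ a = 1 → a = 1 := by
      rintro _ ⟨m, rfl⟩ h
      simp only [map_zpow, hz, hpow] at h
      have h2 : m = 0 := by simpa using congrArg Multiplicative.toAdd h
      simp only [h2, zpow_zero]
    refine ⟨⟨?_, ?_⟩, h1⟩
    · rw [injective_iff_map_eq_one]
      rintro ⟨a, ha⟩ h
      exact Subtype.ext (h1 a ha h)
    · intro m
      refine ⟨⟨z ^ m.toAdd, m.toAdd, rfl⟩, ?_⟩
      change τ (z ^ m.toAdd) = m
      rw [map_zpow, hz, hpow]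
      rfl
  set eA := MulEquiv.ofBijective _ (key x hx).1
  set eB := MulEquiv.ofBijective _ (key y hy).1
  have h1 : ∀ a, τ ((eA.trans eB.symm) a) = τ a := by
    intro a
    exact eB.apply_symm_apply (eA a)
  refine ⟨eA.trans eB.symm, h1, (key x hx).2, fun m => ?_⟩
  have h2 : (eA.trans eB.symm) ⟨x ^ m, m, rfl⟩ = ⟨y ^ m, m, rfl⟩ := by
    refine eB.injective ?_
    rw [MulEquiv.trans_apply, MulEquiv.apply_symm_apply]
    change τ (x ^ m) = τ (y ^ m)
    rw [map_zpow, map_zpow, hx, hy]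
  rw [h2]

section Tower

variable {G₀ : Type} [Group G₀] {N : ℕ}

/-- the free product of a group and a free group -/
abbrev FP (G₀ : Type) [Group G₀] (N : ℕ) : Type := Monoid.Coprod G₀ (FreeGroup (Fin N))

/-- the free generators -/
abbrev bb (G₀ : Type) [Group G₀] (N : ℕ) (i : Fin N) : FP G₀ N := Coprod.inr (FreeGroup.of i)

/-- generated by the base and the first `n` free generators -/
def HH (G₀ : Type) [Group G₀] (N n : ℕ) : Subgroup (FP G₀ N) :=
  Subgroup.closure (Set.range (Coprod.inl : G₀ →* FP G₀ N) ∪ {x | ∃ i : Fin N, (i : ℕ) < n ∧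
    x = bb G₀ N i})

theorem HH_inl (n : ℕ) (x : G₀) : (Coprod.inl x : FP G₀ N) ∈ HH G₀ N n :=
  Subgroup.subset_closure (Or.inl ⟨x, rfl⟩)

theorem HH_bb {n : ℕ} {i : Fin N} (hi : (i : ℕ) < n) : bb G₀ N i ∈ HH G₀ N n :=
  Subgroup.subset_closure (Or.inr ⟨i, hi, rfl⟩)

theorem HH_mono {n m : ℕ} (h : n ≤ m) : HH G₀ N n ≤ HH G₀ N m := by
  refine (Subgroup.closure_le _).mpr ?_
  rintro x (⟨y, rfl⟩ | ⟨i, hi, rfl⟩)
  · exact HH_inl _ y
  · exact HH_bb (by omega)

/-- triangular relative to the base -/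
def Tri (σ₀ : MulAut G₀) (σ : MulAut (FP G₀ N)) : Prop :=
  (∀ x, σ (Coprod.inl x) = Coprod.inl (σ₀ x)) ∧
  ∀ i : Fin N, ∃ u ∈ HH G₀ N i, ∃ v ∈ HH G₀ N i, σ (bb G₀ N i) = u * bb G₀ N i * v

variable {σ₀ : MulAut G₀} {σ : MulAut (FP G₀ N)}

theorem Tri.zpow (h : Tri σ₀ σ) (n : ℤ) (x : G₀) :
    (σ ^ n) (Coprod.inl x) = Coprod.inl ((σ₀ ^ n) x) := by
  induction n generalizing x with
  | zero => simp
  | succ n ih => rw [zpow_add_one, zpow_add_one, MulAut.mul_apply, MulAut.mul_apply, h.1, ih]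
  | pred n ih =>
    rw [zpow_sub_one, zpow_sub_one, MulAut.mul_apply, MulAut.mul_apply, ← ih]
    congr 1
    rw [MulAut.inv_apply, MulEquiv.symm_apply_eq, h.1, MulAut.inv_apply,
      MulEquiv.apply_symm_apply]

/-- a stage of the tower -/
structure Stage (σ₀ : MulAut G₀) (σ : MulAut (FP G₀ N)) (n : ℕ) (Γ : Type) [Group Γ]
    (ρ : Γ →* Tor σ) (t : Γ) (κ : FP G₀ N →* Γ) : Prop where
  pa : PA Γ
  rt : ρ t = SemidirectProduct.inr gen
  ri : ∀ x : G₀, ρ (κ (Coprod.inl x)) = SemidirectProduct.inl (Coprod.inl x)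
  rb : ∀ i : Fin N, (i : ℕ) < n → ρ (κ (bb G₀ N i)) = SemidirectProduct.inl (bb G₀ N i)
  ci : ∀ x : G₀, t * κ (Coprod.inl x) * t⁻¹ = κ (Coprod.inl (σ₀ x))
  cb : ∀ i : Fin N, (i : ℕ) < n → t * κ (bb G₀ N i) * t⁻¹ = κ (σ (bb G₀ N i))

theorem Stage.rho {n : ℕ} {Γ : Type} [Group Γ] {ρ : Γ →* Tor σ} {t : Γ} {κ : FP G₀ N →* Γ}
    (h : Stage σ₀ σ n Γ ρ t κ) {w : FP G₀ N} (hw : w ∈ HH G₀ N n) :
    ρ (κ w) = SemidirectProduct.inl w := by
  have h1 : Set.EqOn (ρ.comp κ) (SemidirectProduct.inl : FP G₀ N →* Tor σ) (HH G₀ N n) := by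
    refine MonoidHom.eqOn_closure ?_
    rintro x (⟨y, rfl⟩ | ⟨i, hi, rfl⟩)
    · exact h.ri y
    · exact h.rb i hi
  exact h1 hw

theorem base (hT : Tri σ₀ σ) (hPA : PA (Tor σ₀)) :
    ∃ (Γ : Type) (_ : Group Γ) (ρ : Γ →* Tor σ) (t : Γ) (κ : FP G₀ N →* Γ),
      Stage σ₀ σ 0 Γ ρ t κ := by
  let ρ : Tor σ₀ →* Tor σ := SemidirectProduct.map (Coprod.inl : G₀ →* FP G₀ N)
    (MonoidHom.id _) (by
      intro g
      ext x
      simp only [MonoidHom.comp_apply, MulEquiv.coe_toMonoidHom, MonoidHom.id_apply,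
        zpowersHom_apply]
      exact (hT.zpow _ x).symm)
  let κ : FP G₀ N →* Tor σ₀ := Coprod.lift SemidirectProduct.inl 1
  have hκ : ∀ x : G₀, κ (Coprod.inl x) = SemidirectProduct.inl x := fun x =>
    Coprod.lift_apply_inl _ _ x
  refine ⟨Tor σ₀, inferInstance, ρ, SemidirectProduct.inr gen, κ, hPA, ?_, ?_, ?_, ?_, ?_⟩
  · simp [ρ]
  · intro x
    rw [hκ]
    simp [ρ]
  · intro i hi
    omega
  · intro x
    rw [hκ, hκ, inr_inl, mul_inv_cancel_right]
  · intro i hi
    omega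

theorem step (hT : Tri σ₀ σ) {n : ℕ} (hn : n < N)
    (h : ∃ (Γ : Type) (_ : Group Γ) (ρ : Γ →* Tor σ) (t : Γ) (κ : FP G₀ N →* Γ),
      Stage σ₀ σ n Γ ρ t κ) :
    ∃ (Γ : Type) (_ : Group Γ) (ρ : Γ →* Tor σ) (t : Γ) (κ : FP G₀ N →* Γ),
      Stage σ₀ σ (n + 1) Γ ρ t κ := by
  classical
  obtain ⟨Γ, _, ρ, t, κ, hS⟩ := h
  set k : Fin N := ⟨n, hn⟩ with hk
  obtain ⟨u, hu, v, hv, huv⟩ := hT.2 k
  have hu' : u ∈ HH G₀ N n := hu
  have hv' : v ∈ HH G₀ N n := hv
  set x : Γ := κ v * t with hx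
  set y : Γ := (κ u)⁻¹ * t with hy
  have hρx : ρ x = SemidirectProduct.inl v * SemidirectProduct.inr gen := by
    rw [hx, map_mul, hS.rho hv', hS.rt]
  have hρy : ρ y = (SemidirectProduct.inl u)⁻¹ * SemidirectProduct.inr gen := by
    rw [hy, map_mul, map_inv, hS.rho hu', hS.rt]
  have hτx : (SemidirectProduct.rightHom.comp ρ) x = gen := by
    rw [MonoidHom.comp_apply, hρx]; simp
  have hτy : (SemidirectProduct.rightHom.comp ρ) y = gen := by
    rw [MonoidHom.comp_apply, hρy]; simp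
  obtain ⟨φ, hφ1, hφ2, hφ3⟩ := exists_iso (SemidirectProduct.rightHom.comp ρ) hτx hτy
  have hsemi : SemiconjBy (SemidirectProduct.inl (bb G₀ N k) : Tor σ) (ρ x) (ρ y) := by
    unfold SemiconjBy
    rw [hρx, hρy, mul_assoc, inr_inl, huv, map_mul, map_mul]
    group
  let ρ' : HNNExtension Γ (Subgroup.zpowers x) (Subgroup.zpowers y) φ →* Tor σ :=
    HNNExtension.lift ρ (SemidirectProduct.inl (bb G₀ N k)) (by
      rintro ⟨_, m, rfl⟩
      have h1 := hφ3 m
      simp only at h1 ⊢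
      rw [h1, map_zpow, map_zpow]
      exact hsemi.zpow_right m)
  let κ' : FP G₀ N →* HNNExtension Γ (Subgroup.zpowers x) (Subgroup.zpowers y) φ :=
    Coprod.lift ((of.comp κ).comp Coprod.inl)
      (FreeGroup.lift fun i => if i = k then HNNExtension.t else of (κ (bb G₀ N i)))
  have hκi : ∀ z : G₀, κ' (Coprod.inl z) = of (κ (Coprod.inl z)) := fun z =>
    Coprod.lift_apply_inl _ _ z
  have hκb : ∀ i : Fin N, i ≠ k → κ' (bb G₀ N i) = of (κ (bb G₀ N i)) := by
    intro i hi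
    have h1 : κ' (bb G₀ N i) = (FreeGroup.lift fun i => if i = k then HNNExtension.t
        else of (κ (bb G₀ N i))) (FreeGroup.of i) := Coprod.lift_apply_inr _ _ _
    rw [h1, FreeGroup.lift_apply_of, if_neg hi]
  have hκk : κ' (bb G₀ N k) = HNNExtension.t := by
    have h1 : κ' (bb G₀ N k) = (FreeGroup.lift fun i => if i = k then HNNExtension.t
        else of (κ (bb G₀ N i))) (FreeGroup.of k) := Coprod.lift_apply_inr _ _ _
    rw [h1, FreeGroup.lift_apply_of, if_pos rfl]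
  have hagree : ∀ w ∈ HH G₀ N n, κ' w = of (κ w) := by
    have h1 : Set.EqOn κ' (of.comp κ) (HH G₀ N n) := by
      refine MonoidHom.eqOn_closure ?_
      rintro z (⟨z, rfl⟩ | ⟨i, hi, rfl⟩)
      · exact hκi z
      · exact hκb i fun h2 => by
          rw [h2] at hi
          exact lt_irrefl _ hi
    exact fun w hw => h1 hw
  have hρ'o : ∀ z, ρ' (of z) = ρ z := fun z => HNNExtension.lift_of _ _ _ z
  have hρ't : ρ' HNNExtension.t = SemidirectProduct.inl (bb G₀ N k) := HNNExtension.lift_t _ _ _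
  have hcases : ∀ i : Fin N, (i : ℕ) < n + 1 → i = k ∨ ((i : ℕ) < n ∧ i ≠ k) := by
    intro i hi
    rcases Nat.lt_or_ge (i : ℕ) n with h1 | h1
    · exact Or.inr ⟨h1, fun h2 => by rw [h2] at h1; exact lt_irrefl _ h1⟩
    · left
      ext
      simp only [hk]
      omega
  refine ⟨_, inferInstance, ρ', of t, κ', ?_, ?_, ?_, ?_, ?_, ?_⟩
  · exact pa_hnn φ (SemidirectProduct.rightHom.comp ρ) hφ1 hφ2 hS.pa
  · rw [hρ'o, hS.rt]
  · intro z
    rw [hκi, hρ'o, hS.ri]
  · intro i hi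
    rcases hcases i hi with rfl | ⟨h1, h2⟩
    · rw [hκk, hρ't]
    · rw [hκb i h2, hρ'o, hS.rb i h1]
  · intro z
    rw [hκi, hκi, ← hS.ci, map_mul, map_mul, map_inv]
  · intro i hi
    rcases hcases i hi with rfl | ⟨h1, h2⟩
    · -- the new relation
      have h3 : (HNNExtension.t : HNNExtension Γ (Subgroup.zpowers x) (Subgroup.zpowers y) φ)
          * of x = of y * HNNExtension.t := by
        have h4 := HNNExtension.t_mul_of (φ := φ) ⟨x, Subgroup.mem_zpowers x⟩
        have h5 := hφ3 1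
        simp only [zpow_one] at h5
        rw [h5] at h4
        exact h4
      have e1 : (of x : HNNExtension Γ (Subgroup.zpowers x) (Subgroup.zpowers y) φ)
          = of (κ v) * of t := map_mul _ _ _
      have e2 : (of y : HNNExtension Γ (Subgroup.zpowers x) (Subgroup.zpowers y) φ)
          = (of (κ u))⁻¹ * of t := by
        rw [← map_inv]
        exact map_mul _ _ _
      rw [e1, e2] at h3
      rw [huv, map_mul, map_mul, hκk, hagree u hu', hagree v hv']
      rw [mul_inv_eq_iff_eq_mul, mul_assoc, mul_assoc, h3]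
      group
    · rw [hκb i h2]
      have h3 : σ (bb G₀ N i) ∈ HH G₀ N n := by
        obtain ⟨u', hu1, v', hv1, h4⟩ := hT.2 i
        rw [h4]
        exact Subgroup.mul_mem _ (Subgroup.mul_mem _ (HH_mono h1.le hu1) (HH_bb h1))
          (HH_mono h1.le hv1)
      rw [hagree _ h3, ← hS.cb i h1, map_mul, map_mul, map_inv]

theorem tower (hT : Tri σ₀ σ) (hPA : PA (Tor σ₀)) (n : ℕ) (hn : n ≤ N) :
    ∃ (Γ : Type) (_ : Group Γ) (ρ : Γ →* Tor σ) (t : Γ) (κ : FP G₀ N →* Γ),
      Stage σ₀ σ n Γ ρ t κ := by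
  induction n with
  | zero => exact base hT hPA
  | succ n ih => exact step hT (by omega) (ih (by omega))

/-- the last stage contains the mapping torus -/
theorem pa_tor (hT : Tri σ₀ σ) (hPA : PA (Tor σ₀)) : PA (Tor σ) := by
  obtain ⟨Γ, _, ρ, t, κ, hS⟩ := tower hT hPA N le_rfl
  have hc : (MulAut.conj t).toMonoidHom.comp κ = κ.comp σ.toMonoidHom := by
    ext i
    · change t * κ (Coprod.inl i) * t⁻¹ = κ (σ (Coprod.inl i))
      rw [hT.1, hS.ci]
    · change t * κ (Coprod.inr (FreeGroup.of i)) * t⁻¹ = κ (σ (Coprod.inr (FreeGroup.of i)))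
      exact hS.cb i i.2
  have hc1 : ∀ w, κ (σ w) = t * κ w * t⁻¹ := fun w => (DFunLike.congr_fun hc w).symm
  have hcz : ∀ (m : ℤ) (w), κ ((σ ^ m) w) = t ^ m * κ w * (t ^ m)⁻¹ := by
    intro m
    induction m with
    | zero => intro w; simp
    | succ m ih =>
      intro w
      rw [zpow_add_one, MulAut.mul_apply, ih, hc1, zpow_add_one]
      group
    | pred m ih =>
      intro w
      rw [zpow_sub_one, MulAut.mul_apply, ih]
      have h1 : κ w = t * κ ((σ⁻¹) w) * t⁻¹ := by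
        rw [← hc1, MulAut.inv_apply, MulEquiv.apply_symm_apply]
      rw [h1, zpow_sub_one]
      group
  have hr : ∀ w, ρ (κ w) = SemidirectProduct.inl w := by
    have : ρ.comp κ = SemidirectProduct.inl := by
      refine Coprod.hom_ext (MonoidHom.ext fun x => hS.ri x) ?_
      refine FreeGroup.ext_hom _ _ fun i => hS.rb i i.2
    exact fun w => DFunLike.congr_fun this w
  let j : Tor σ →* Γ := SemidirectProduct.lift κ (zpowersHom Γ t) (by
    intro g
    refine MonoidHom.ext fun w => ?_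
    simp only [MonoidHom.comp_apply, MulEquiv.coe_toMonoidHom, zpowersHom_apply,
      MulAut.conj_apply]
    exact hcz _ w)
  have hj : Function.Injective j := by
    have : ρ.comp j = MonoidHom.id _ := by
      refine SemidirectProduct.hom_ext ?_ ?_
      · refine MonoidHom.ext fun w => ?_
        simp only [MonoidHom.comp_apply, MonoidHom.id_apply]
        rw [SemidirectProduct.lift_inl]
        exact hr w
      · refine MonoidHom.ext_mint ?_
        simp only [MonoidHom.comp_apply, MonoidHom.id_apply]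
        rw [SemidirectProduct.lift_inr, zpowersHom_apply, toAdd_ofAdd, zpow_one, hS.rt]
    intro a b hab
    have h1 := congrArg ρ hab
    have h2 := DFunLike.congr_fun this a
    have h3 := DFunLike.congr_fun this b
    simp only [MonoidHom.comp_apply, MonoidHom.id_apply] at h2 h3
    rw [← h2, ← h3, h1]
  exact pa_of_injective j hj hS.pa

end Tower

end Pool.Agent.H258.TR
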